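import Mathlib

set_option autoImplicit false

namespace Pool.Agent.H.MP_02f3ba_co

open Finset

variable {V : Type} [AddCommGroup V]

def ok (B : Set V) : V → List V → Prop
  | x, [] => x ∈ B
  | x, u :: l => x ∈ B ∧ (ok B (x + u) l ∨ ok B (x - u) l)

def SS : List V → V → Prop
  | [], z => z = 0
  | u :: p, z => SS p (z - u) ∨ SS p (z + u)

lemma ok.mem {B : Set V} {x : V} {l : List V} (h : ok B x l) : x ∈ B := by
  cases l with
  | nil => exact h
  | cons u l => exact h.1

lemma SS_ex (p : List V) : ∃ z, SS p z := by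
  induction p with
  | nil => exact ⟨0, rfl⟩
  | cons u p ih =>
    obtain ⟨z, hz⟩ := ih
    exact ⟨z + u, Or.inl (by simpa using hz)⟩

lemma split (p : List V) : ∀ c : Fin p.length → ℤ, (∀ i, c i = 1 ∨ c i = 0 ∨ c i = -1) →
    ∃ q : List V, q.length ≤ p.length ∧ (c ≠ 0 → q.length < p.length) ∧ (∀ v ∈ q, v ∈ p) ∧
      ∀ z, SS q z → SS p (z + ∑ i, c i • p.get i) ∧ SS p (z - ∑ i, c i • p.get i) := by
  induction p with
  | nil => exact fun c _ => ⟨[], le_rfl, fun h => absurd (funext fun i => i.elim0) h, by simp,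
      fun z hz => by simpa using hz⟩
  | cons u p ih =>
    intro c hc
    obtain ⟨q, h1, h2, h3, h4⟩ := ih (fun i => c i.succ) (fun i => hc _)
    have e : ∑ i, c i • (u :: p).get i = c 0 • u + ∑ i : Fin p.length, c i.succ • p.get i :=
      Fin.sum_univ_succ (fun i : Fin (p.length + 1) => c i • (u :: p).get i)
    rw [e]
    rcases hc 0 with h | h | h
    · refine ⟨q, by simp; omega, fun _ => by simp; omega, fun v hv => by simp [h3 v hv],
        fun z hz => ⟨Or.inl ?_, Or.inr ?_⟩⟩
      · convert (h4 z hz).1 using 1; rw [h]; simp only [one_smul]; abel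
      · convert (h4 z hz).2 using 1; rw [h]; simp only [one_smul]; abel
    · refine ⟨u :: q, by simpa using h1, fun hc0 => ?_, fun v hv => ?_, fun z hz => ?_⟩
      · have := h2 fun e => hc0 (funext fun i => Fin.cases h (fun j => congrFun e j) i)
        simpa using this
      · rcases List.mem_cons.1 hv with rfl | hv
        · simp
        · simp [h3 v hv]
      · rw [h, zero_smul, zero_add]
        rcases hz with hz | hz
        · refine ⟨Or.inl ?_, Or.inl ?_⟩
          · convert (h4 _ hz).1 using 1; abel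
          · convert (h4 _ hz).2 using 1; abel
        · refine ⟨Or.inr ?_, Or.inr ?_⟩
          · convert (h4 _ hz).1 using 1; abel
          · convert (h4 _ hz).2 using 1; abel
    · refine ⟨q, by simp; omega, fun _ => by simp; omega, fun v hv => by simp [h3 v hv],
        fun z hz => ⟨Or.inr ?_, Or.inl ?_⟩⟩
      · convert (h4 z hz).1 using 1; rw [h]; simp only [neg_smul, one_smul]; abel
      · convert (h4 z hz).2 using 1; rw [h]; simp only [neg_smul, one_smul]; abel

lemma level {A A' B B' : Set V} {K : ℕ}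
    (pc : ∀ u : Fin K → V, (∀ i, u i ∈ A) → ∃ c : Fin K → ℤ,
      (∀ i, c i = 1 ∨ c i = 0 ∨ c i = -1) ∧ c ≠ 0 ∧ ∑ i, c i • u i ∈ A')
    (hB : ∀ p : List V, (∀ v ∈ p, v ∈ A) → p.length < K → ∀ z, SS p z → ∀ y ∈ B', y + z ∈ B)
    (l : List V) : (∀ v ∈ l, v ∈ A) → ∀ p : List V, (∀ v ∈ p, v ∈ A) → p.length < K →
      ∃ w : List V, (∀ v ∈ w, v ∈ A') ∧ ∀ y, ok B' y w → ∃ z, SS p z ∧ ok B (y + z) l := by
  induction l with
  | nil =>
    intro _ p hp hK
    obtain ⟨z, hz⟩ := SS_ex p
    exact ⟨[], by simp, fun y hy => ⟨z, hz, hB p hp hK z hz y hy⟩⟩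
  | cons u l ih =>
    intro hl p hp hK
    have hl' : ∀ v ∈ l, v ∈ A := fun v hv => hl v (by simp [hv])
    have hp' : ∀ v ∈ u :: p, v ∈ A := fun v hv => by
      rcases List.mem_cons.1 hv with rfl | hv
      exacts [hl _ (by simp), hp v hv]
    have fin : ∀ y ∈ B', ∀ z', SS (u :: p) z' → ok B (y + z') l →
        ∃ z, SS p z ∧ ok B (y + z) (u :: l) := by
      rintro y hy z' (h | h) h2
      · exact ⟨_, h, hB p hp hK _ h y hy, Or.inl (by convert h2 using 1; abel)⟩
      · exact ⟨_, h, hB p hp hK _ h y hy, Or.inr (by convert h2 using 1; abel)⟩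
    rcases Nat.lt_or_ge (u :: p).length K with h | h
    · obtain ⟨w, hw, h2⟩ := ih hl' _ hp' h
      refine ⟨w, hw, fun y hy => ?_⟩
      obtain ⟨z', h3, h4⟩ := h2 y hy
      exact fin y hy.mem z' h3 h4
    · obtain rfl : K = (u :: p).length := by simp at h ⊢; omega
      obtain ⟨c, c1, c2, c3⟩ := pc (u :: p).get fun i => hp' _ (List.get_mem _ i)
      obtain ⟨q, -, q2, q3, q4⟩ := split (u :: p) c c1
      obtain ⟨w, hw, h2⟩ := ih hl' q (fun v hv => hp' v (q3 v hv)) (q2 c2)
      refine ⟨(∑ i, c i • (u :: p).get i) :: w, fun v hv => ?_, ?_⟩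
      · rcases List.mem_cons.1 hv with rfl | hv
        exacts [c3, hw v hv]
      · rintro y ⟨hy, h3 | h3⟩
        · obtain ⟨z, h4, h5⟩ := h2 _ h3
          exact fin y hy _ (q4 z h4).1 (by convert h5 using 1; abel)
        · obtain ⟨z, h4, h5⟩ := h2 _ h3
          exact fin y hy _ (q4 z h4).2 (by convert h5 using 1; abel)

def sg (b : Bool) : ℤ := if b then 1 else -1

lemma ok_fun {B : Set V} (l : List V) : ∀ x, ok B x l → ∃ ε : ℕ → Bool, ∀ t ≤ l.length,
    x + ∑ i ∈ range t, sg (ε i) • l.getD i 0 ∈ B := by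
  induction l with
  | nil => exact fun x h => ⟨fun _ => true, fun t ht => by
      obtain rfl : t = 0 := by simpa using ht
      simpa using h.mem⟩
  | cons u l ih =>
    rintro x ⟨h, h2 | h2⟩
    · obtain ⟨ε, hε⟩ := ih _ h2
      refine ⟨fun i => if i = 0 then true else ε (i - 1), fun t ht => ?_⟩
      rcases t with _ | t
      · simpa using h
      · have := hε t (by simpa using ht)
        rw [sum_range_succ']
        convert this using 1
        simp [sg]
        abel
    · obtain ⟨ε, hε⟩ := ih _ h2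
      refine ⟨fun i => if i = 0 then false else ε (i - 1), fun t ht => ?_⟩
      rcases t with _ | t
      · simpa using h
      · have := hε t (by simpa using ht)
        rw [sum_range_succ']
        convert this using 1
        simp [sg]
        abel

def Bx {ι : Type} (T : Finset ι) (M : ι → ℝ) : Set (ι → ℤ) := {u | ∀ p ∈ T, |(u p : ℝ)| ≤ M p}

lemma SS_bd {ι : Type} {T : Finset ι} {M : ι → ℝ} (p : List (ι → ℤ)) :
    (∀ v ∈ p, v ∈ Bx T M) → ∀ z, SS p z → z ∈ Bx T (fun i => p.length * M i) := by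
  induction p with
  | nil => rintro - z rfl i -; simp
  | cons u p ih =>
    intro h z hz i hi
    have hu := abs_le.1 (h u (by simp) i hi)
    rcases hz with hz | hz <;>
    · have := abs_le.1 (ih (fun v hv => h v (by simp [hv])) _ hz i hi)
      simp only [Pi.sub_apply, Pi.add_apply, Int.cast_sub, Int.cast_add] at this
      simp only [List.length_cons, Nat.cast_succ]
      rw [abs_le]
      constructor <;> linarith

lemma core {ι : Type} (T : Finset ι) (M : ℕ → ι → ℝ) (K : ℕ → ℕ) (hM : ∀ j i, 0 ≤ M j i)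
    (hK : ∀ j, 0 < K j)
    (pc : ∀ j (u : Fin (K j) → ι → ℤ), (∀ i, u i ∈ Bx T (M j)) → ∃ c : Fin (K j) → ℤ,
      (∀ i, c i = 1 ∨ c i = 0 ∨ c i = -1) ∧ c ≠ 0 ∧ ∑ i, c i • u i ∈ Bx T (M (j + 1)))
    (n : ℕ) : ∀ j, (∀ i ∈ T, M (j + n) i = 0) → ∀ l : List (ι → ℤ), (∀ v ∈ l, v ∈ Bx T (M j)) →
      ok (Bx T fun i => ∑ k ∈ range n, K (j + k) * M (j + k) i) 0 l := by
  induction n with
  | zero =>
    intro j h0 l hl
    have : ∀ l : List (ι → ℤ), (∀ v ∈ l, v ∈ Bx T (M j)) → ∀ x ∈ Bx T (fun _ => 0),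
        ok (Bx T fun _ => 0) x l := by
      intro l
      induction l with
      | nil => exact fun _ x hx => hx
      | cons u l ih =>
        intro hl x hx
        refine ⟨hx, Or.inl (ih (fun v hv => hl v (by simp [hv])) _ fun i hi => ?_)⟩
        have a := hl u (by simp) i hi
        have b := hx i hi
        have c : M j i = 0 := h0 i hi
        rw [c] at a
        simp only [Pi.add_apply, Int.cast_add]
        exact (abs_add_le _ _).trans (by linarith)
    simpa using this l hl 0 fun i _ => by simp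
  | succ n ih =>
    intro j h0 l hl
    obtain ⟨w, hw, h2⟩ := level (pc j)
      (B := Bx T fun i => ∑ k ∈ range (n + 1), K (j + k) * M (j + k) i)
      (B' := Bx T fun i => ∑ k ∈ range n, K (j + 1 + k) * M (j + 1 + k) i)
      (fun p hp hK z hz y hy i hi => by
        have a := SS_bd p hp z hz i hi
        have b := hy i hi
        have c : (p.length : ℝ) ≤ K j := by exact_mod_cast hK.le
        simp only [Pi.add_apply, Int.cast_add]
        rw [sum_range_succ']
        simp only [add_zero, ← add_assoc, add_right_comm j _ 1]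
        exact (abs_add_le _ _).trans
          (add_le_add b (a.trans (mul_le_mul_of_nonneg_right c (hM j i))))) l hl [] (by simp) (hK j)
    obtain ⟨z, rfl, h3⟩ := h2 0 (ih (j + 1) (fun i hi => by
      rw [add_right_comm, add_assoc]; exact h0 i hi) w hw)
    simpa using h3

lemma hoeff {K : ℕ} (a : Fin K → ℝ) {m l : ℝ} (hm : ∀ i, |a i| ≤ m) (hl : 0 ≤ l) :
    ((univ.filter fun ε : Fin K → Bool => l * √K * m < ∑ i, sg (ε i) * a i).card : ℝ) ≤
      2 ^ K * Real.exp (-(l ^ 2 / 2)) := by
  rcases Nat.eq_zero_or_pos K with rfl | hK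
  · simp; positivity
  have m0 : 0 ≤ m := (abs_nonneg _).trans (hm ⟨0, hK⟩)
  rcases m0.eq_or_lt with rfl | m0
  · have : ∀ i, a i = 0 := fun i => abs_nonpos_iff.1 (hm i)
    simp [this]; positivity
  have s0 : 0 < √(K : ℝ) := Real.sqrt_pos.2 (by exact_mod_cast hK)
  set θ := l / (√K * m) with hθ
  have θ0 : 0 ≤ θ := by positivity
  have e1 : ∑ ε : Fin K → Bool, Real.exp (θ * ∑ i, sg (ε i) * a i) ≤
      2 ^ K * Real.exp (l ^ 2 / 2) := by
    simp_rw [mul_sum, Real.exp_sum]
    rw [← Fintype.piFinset_univ, ← prod_univ_sum (fun _ => univ)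
      (fun i b => Real.exp (θ * (sg b * a i)))]
    have : ∀ i, ∑ b : Bool, Real.exp (θ * (sg b * a i)) ≤ 2 * Real.exp (l ^ 2 / 2 / K) := by
      intro i
      have h := Real.cosh_le_exp_half_sq (θ * a i)
      rw [Real.cosh_eq] at h
      have h2 : (θ * a i) ^ 2 / 2 ≤ l ^ 2 / 2 / K := by
        have : a i ^ 2 ≤ m ^ 2 := sq_le_sq' (abs_le.1 (hm i)).1 (abs_le.1 (hm i)).2
        have e : l ^ 2 / 2 / K = θ ^ 2 * m ^ 2 / 2 := by
          rw [hθ, div_pow, mul_pow, Real.sq_sqrt (by positivity)]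
          field_simp
        rw [e, mul_pow]
        gcongr
      have h3 := Real.exp_le_exp.2 h2
      simp only [sg, Fintype.sum_bool, if_true, Bool.false_eq_true, if_false]
      push_cast
      rw [one_mul, neg_one_mul, mul_neg]
      linarith
    refine (prod_le_prod (fun i _ => by positivity) fun i _ => this i).trans (le_of_eq ?_)
    rw [prod_const, card_univ, Fintype.card_fin, mul_pow, ← Real.exp_nat_mul]
    congr 2
    field_simp
  have e2 : ((univ.filter fun ε : Fin K → Bool =>
      l * √K * m < ∑ i, sg (ε i) * a i).card : ℝ) * Real.exp (l ^ 2) ≤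
      ∑ ε : Fin K → Bool, Real.exp (θ * ∑ i, sg (ε i) * a i) := by
    rw [← nsmul_eq_mul, ← sum_const]
    refine (sum_le_sum fun ε hε => ?_).trans
      (sum_le_sum_of_subset_of_nonneg (filter_subset _ _) fun _ _ _ => (Real.exp_pos _).le)
    refine Real.exp_le_exp.2 (le_trans (le_of_eq ?_)
      (mul_le_mul_of_nonneg_left (mem_filter.1 hε).2.le θ0))
    rw [hθ]; field_simp
  refine le_of_mul_le_mul_right ((e2.trans e1).trans (le_of_eq ?_)) (Real.exp_pos (l ^ 2))
  rw [mul_assoc, ← Real.exp_add]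
  congr 2
  ring

lemma pcol {ι : Type} [DecidableEq ι] (T T0 : Finset ι) (M l : ι → ℝ) {K R : ℕ}
    (hl : ∀ p, 0 ≤ l p) (hs : ∑ p ∈ T, Real.exp (-(l p ^ 2 / 2)) ≤ 1 / 4) (h0 : T0 ⊆ T)
    (hR : ∀ p ∈ T0, K * M p ≤ R) (hK : 2 * (2 * R + 1) ^ T0.card < 2 ^ K)
    (u : Fin K → ι → ℤ) (hu : ∀ i, u i ∈ Bx T M) :
    ∃ c : Fin K → ℤ, (∀ i, c i = 1 ∨ c i = 0 ∨ c i = -1) ∧ c ≠ 0 ∧
      ∑ i, c i • u i ∈ Bx T (fun p => if p ∈ T0 then 0 else l p * √K * M p) := by
  classical
  let S : (Fin K → Bool) → ι → ℤ := fun ε p => ∑ i, sg (ε i) * u i p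
  let G := univ.filter fun ε : Fin K → Bool => ∀ p ∈ T, |(S ε p : ℝ)| ≤ l p * √K * M p
  have hG : (2 : ℝ) ^ K ≤ 2 * G.card := by
    have h1 : (univ : Finset (Fin K → Bool)) ⊆ G ∪ T.biUnion fun p =>
        (univ.filter fun ε : Fin K → Bool => l p * √K * M p < ∑ i, sg (ε i) * (u i p : ℝ)) ∪
        (univ.filter fun ε : Fin K → Bool => l p * √K * M p < ∑ i, sg (ε i) * -(u i p : ℝ)) := by
      intro ε _
      by_cases h : ε ∈ G
      · exact mem_union_left _ h
      · simp only [G, mem_filter, mem_univ, true_and, not_forall, not_le] at h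
        obtain ⟨p, hp, h⟩ := h
        refine mem_union_right _ (mem_biUnion.2 ⟨p, hp, ?_⟩)
        simp only [S, Int.cast_sum, Int.cast_mul] at h
        simp only [mem_union, mem_filter, mem_univ, true_and, mul_neg, sum_neg_distrib]
        exact lt_abs.1 h
    have h2 := (card_le_card h1).trans ((card_union_le _ _).trans
      (add_le_add_right (card_biUnion_le.trans (sum_le_sum fun p _ => card_union_le _ _)) _))
    have h3 : ((2 : ℝ) ^ K) ≤ G.card + ∑ p ∈ T, 2 * (2 ^ K * Real.exp (-(l p ^ 2 / 2))) := by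
      simp only [card_univ, Fintype.card_fun, Fintype.card_bool, Fintype.card_fin] at h2
      have h2' := (Nat.cast_le (α := ℝ)).2 h2
      rw [Nat.cast_pow, Nat.cast_add, Nat.cast_sum, Nat.cast_ofNat] at h2'
      refine h2'.trans (add_le_add_right (sum_le_sum fun p hp => ?_) _)
      rw [Nat.cast_add]
      have a := hoeff (fun i => (u i p : ℝ)) (fun i => hu i p hp) (hl p)
      have b := hoeff (fun i => -(u i p : ℝ)) (fun i => by simpa using hu i p hp) (hl p)
      linarith
    rw [← mul_sum, ← mul_sum] at h3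
    have : (0 : ℝ) < 2 ^ K := by positivity
    nlinarith
  obtain ⟨ε, hε, ε', hε', hne, he⟩ := exists_ne_map_eq_of_card_lt_of_maps_to (s := G)
    (t := Fintype.piFinset fun _ : T0 => Icc (-(R : ℤ)) R) (f := fun ε p => S ε p) (by
      have : 2 ^ K ≤ 2 * G.card := by exact_mod_cast hG
      simp only [Fintype.card_piFinset, Int.card_Icc, prod_const, card_univ, Fintype.card_coe]
      rw [show ((R : ℤ) + 1 - -(R : ℤ)).toNat = 2 * R + 1 by omega]
      omega) (fun ε _ => by
      refine mem_coe.2 (Fintype.mem_piFinset.2 fun p => mem_Icc.2 (abs_le.1 ?_))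
      have : |(S ε p : ℝ)| ≤ R := by
        simp only [S, Int.cast_sum, Int.cast_mul]
        refine (abs_sum_le_sum_abs _ _).trans (le_trans ?_ (hR p p.2))
        refine (sum_le_sum (g := fun _ => M p) fun i _ => ?_).trans (by simp)
        have := hu i p (h0 p.2)
        cases ε i <;> simpa [sg] using this
      exact_mod_cast this)
  refine ⟨fun i => (sg (ε i) - sg (ε' i)) / 2, fun i => ?_, fun h => hne (funext fun i => ?_),
    fun p hp => ?_⟩
  · rcases h1 : ε i <;> rcases h2 : ε' i <;> simp [sg, h1, h2]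
  · have := congrFun h i
    revert this
    rcases h1 : ε i <;> rcases h2 : ε' i <;> simp [sg, h1, h2]
  · have e : 2 * (∑ i, ((sg (ε i) - sg (ε' i)) / 2) • u i) p = S ε p - S ε' p := by
      simp only [S, Finset.sum_apply, Pi.smul_apply, smul_eq_mul, mul_sum, ← sum_sub_distrib]
      refine sum_congr rfl fun i _ => ?_
      cases ε i <;> cases ε' i <;> simp [sg] <;> ring
    have e' := congrArg (Int.cast : ℤ → ℝ) e
    push_cast at e'
    have a := abs_le.1 ((mem_filter.1 hε).2 p hp)
    have b := abs_le.1 ((mem_filter.1 hε').2 p hp)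
    simp only
    split_ifs with h
    · have : S ε p = S ε' p := congrFun he ⟨p, h⟩
      rw [this] at e'
      rw [abs_nonpos_iff]
      linarith
    · rw [abs_le]
      constructor <;> linarith

end Pool.Agent.H.MP_02f3ba_co
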