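import Pool.Agent.H.MP_02f3ba_co.A

set_option autoImplicit false

namespace Pool.Agent.H.MP_02f3ba_co

open Finset

noncomputable def ee (a : ℝ) (j : ℕ) : ℕ := ⌈a ^ j⌉₊
noncomputable def KK (a : ℝ) (j : ℕ) : ℕ := 4 ^ ee a j * (100 * ee a j ^ 2)
noncomputable def lam (d : ℕ) : ℝ := √(2 * Real.log (8 * d ^ 3))
noncomputable def mm (a : ℝ) (d : ℕ) : ℕ → ℝ
  | 0 => 1
  | j + 1 => lam d * √(KK a j) * mm a d j
noncomputable def ZZ (a : ℝ) : ℕ → ℕ
  | 0 => 0
  | j + 1 => 2 ^ ee a j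
noncomputable def MM (a : ℝ) (j : ℕ) (p : (_ : ℕ) × ℕ) : ℝ :=
  if p.1 ≤ ZZ a j then 0 else mm a p.1 j
noncomputable def yy (d : ℕ) : ℝ := Real.logb 2 d + 1

lemma mm_nonneg (a : ℝ) (d j : ℕ) : 0 ≤ mm a d j := by
  induction j with
  | zero => simp [mm]
  | succ j ih => unfold mm lam; positivity

lemma MM_nonneg (a : ℝ) (j : ℕ) (p : (_ : ℕ) × ℕ) : 0 ≤ MM a j p := by
  unfold MM; split_ifs; exacts [le_rfl, mm_nonneg ..]

lemma MM_le (a : ℝ) (j : ℕ) (p : (_ : ℕ) × ℕ) : MM a j p ≤ mm a p.1 j := by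
  unfold MM; split_ifs; exacts [mm_nonneg .., le_rfl]

variable {a : ℝ}

lemma ee_ge (j : ℕ) : a ^ j ≤ ee a j := Nat.le_ceil _

lemma ee_le (h1 : 3 / 2 ≤ a) (j : ℕ) : (ee a j : ℝ) ≤ a ^ j + 1 :=
  (Nat.ceil_lt_add_one (by positivity)).le

lemma ee_two (h1 : 3 / 2 ≤ a) (j : ℕ) : j + 2 ≤ 2 * ee a j := by
  have h := one_add_mul_sub_le_pow (a := a) (by linarith) j
  have h2 := ee_ge (a := a) j
  have h3 : (0 : ℝ) ≤ j := Nat.cast_nonneg _
  have : (j : ℝ) + 2 ≤ 2 * ee a j := by nlinarith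
  exact_mod_cast this

lemma sqrt_KK (j : ℕ) : √(KK a j) = 2 ^ ee a j * (10 * ee a j) := by
  rw [Real.sqrt_eq_iff_mul_self_eq (by positivity) (by positivity), KK]
  push_cast
  rw [show (4 : ℝ) = 2 * 2 by norm_num, mul_pow]
  ring

lemma yy_one {d : ℕ} (hd : 1 ≤ d) : 1 ≤ yy d := by
  have := Real.logb_nonneg (b := 2) (x := d) one_lt_two (by exact_mod_cast hd)
  unfold yy; linarith

lemma lam_le {d : ℕ} (hd : 1 ≤ d) : lam d ≤ 3 * yy d := by
  have y1 := yy_one hd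
  have d0 : (0 : ℝ) < d := by exact_mod_cast hd
  have l2 : 0 < Real.log 2 := Real.log_pos one_lt_two
  have l3 : Real.log 2 ≤ 1 := by
    have := Real.log_le_sub_one_of_pos (x := 2) two_pos; linarith
  have e : Real.log (8 * d ^ 3) = 3 * Real.log 2 * yy d := by
    rw [show (8 : ℝ) * d ^ 3 = (2 * d) ^ 3 by ring, Real.log_pow, Real.log_mul two_ne_zero d0.ne',
      yy, Real.logb]
    field_simp
    push_cast
    ring
  rw [lam, e, Real.sqrt_le_left (by positivity)]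
  nlinarith

lemma two_ee (h1 : 3 / 2 ≤ a) (j : ℕ) : (2 : ℝ) ^ ee a j ≤ 2 * 2 ^ (a ^ j) := by
  rw [← Real.rpow_natCast, mul_comm, ← Real.rpow_add_one two_ne_zero]
  exact Real.rpow_le_rpow_of_exponent_le one_le_two (ee_le h1 j)

lemma mm_le (h1 : 3 / 2 ≤ a) {d : ℕ} (hd : 1 ≤ d) (j : ℕ) : a ^ j ≤ a * yy d →
    mm a d j ≤ 2 ^ (a ^ j / (a - 1)) * (120 * yy d ^ 2) ^ j := by
  have y1 := yy_one hd
  have a0 : 0 < a - 1 := by linarith
  induction j with
  | zero =>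
    intro _
    simp only [mm, pow_zero, mul_one]
    exact Real.one_le_rpow one_le_two (by positivity)
  | succ j ih =>
    intro h
    have h2 : a ^ j ≤ yy d := by
      rw [pow_succ'] at h
      exact le_of_mul_le_mul_left h (by linarith)
    have h3 := ih (h2.trans (by nlinarith))
    have h4 : (ee a j : ℝ) ≤ 2 * yy d := by linarith [ee_le h1 j]
    have e : (2 : ℝ) ^ (a ^ (j + 1) / (a - 1)) = 2 ^ (a ^ j) * 2 ^ (a ^ j / (a - 1)) := by
      rw [← Real.rpow_add two_pos]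
      congr 1
      field_simp
      ring
    have := mm_nonneg a d j
    calc mm a d (j + 1) = lam d * (2 ^ ee a j * (10 * ee a j)) * mm a d j := by
          rw [mm, sqrt_KK]
      _ ≤ (3 * yy d) * ((2 * 2 ^ (a ^ j)) * (10 * (2 * yy d))) *
          (2 ^ (a ^ j / (a - 1)) * (120 * yy d ^ 2) ^ j) := by
          gcongr
          exacts [lam_le hd, two_ee h1 j]
      _ = _ := by rw [e]; ring

lemma MM_cases (h1 : 3 / 2 ≤ a) (j : ℕ) (p : (_ : ℕ) × ℕ) (hd : 1 ≤ p.1) :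
    MM a j p = 0 ∨ a ^ j ≤ a * yy p.1 := by
  have y1 := yy_one hd
  unfold MM
  split_ifs with h
  · exact Or.inl rfl
  · right
    rcases j with _ | j
    · rw [pow_zero]; nlinarith
    · have h2 : ((2 : ℝ) ^ ee a j) ≤ p.1 := by exact_mod_cast (not_le.1 h).le
      have h3 : (ee a j : ℝ) ≤ Real.logb 2 p.1 := by
        rw [Real.le_logb_iff_rpow_le one_lt_two (by exact_mod_cast hd), Real.rpow_natCast]
        exact h2
      rw [pow_succ']
      refine mul_le_mul_of_nonneg_left ?_ (by linarith)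
      unfold yy
      linarith [ee_ge (a := a) j]

lemma Fbd (h1 : 3 / 2 ≤ a) (h2 : a ≤ 2) (j : ℕ) (p : (_ : ℕ) × ℕ) (hd : 1 ≤ p.1)
    (h : a ^ j ≤ a * yy p.1) : KK a j * MM a j p * 2 ^ j ≤
      2 ^ ((2 * a + a / (a - 1)) * yy p.1) * (240 * yy p.1 ^ 2) ^ (j + 2) := by
  have y1 := yy_one hd
  have a0 : 0 < a - 1 := by linarith
  set y := yy p.1
  have h3 := (MM_le a j p).trans (mm_le h1 hd j h)
  have h4 : (ee a j : ℝ) ≤ 3 * y := by nlinarith [ee_le h1 j]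
  have h5 : (2 : ℝ) ^ ee a j ≤ 2 * 2 ^ (a * y) :=
    (two_ee h1 j).trans (by gcongr; norm_num)
  have h6 : (2 : ℝ) ^ (a ^ j / (a - 1)) ≤ 2 ^ (a * y / (a - 1)) := by gcongr; norm_num
  have e : (2 : ℝ) ^ ((2 * a + a / (a - 1)) * y) =
      2 ^ (a * y) * 2 ^ (a * y) * 2 ^ (a * y / (a - 1)) := by
    rw [← Real.rpow_add two_pos, ← Real.rpow_add two_pos]
    congr 1
    ring
  have m0 := MM_nonneg a j p
  have h7 : 3600 * y ^ 2 ≤ (240 * y ^ 2) ^ 2 := by nlinarith [one_le_pow₀ y1 (n := 2)]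
  calc KK a j * MM a j p * 2 ^ j
      = 2 ^ ee a j * 2 ^ ee a j * (100 * (ee a j : ℝ) ^ 2) * MM a j p * 2 ^ j := by
        rw [KK, ← mul_pow]; push_cast; norm_num
    _ ≤ (2 * 2 ^ (a * y)) * (2 * 2 ^ (a * y)) * (100 * (3 * y) ^ 2) *
        (2 ^ (a * y / (a - 1)) * (120 * y ^ 2) ^ j) * 2 ^ j := by
        gcongr
        exact h3.trans (by gcongr)
    _ = (2 ^ (a * y) * 2 ^ (a * y) * 2 ^ (a * y / (a - 1))) *
        ((240 * y ^ 2) ^ j * (3600 * y ^ 2)) := by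
        rw [show 240 * y ^ 2 = 120 * y ^ 2 * 2 by ring, mul_pow (120 * y ^ 2)]; ring
    _ ≤ _ := by rw [e, pow_add]; gcongr

lemma crude (h1 : 3 / 2 ≤ a) (h2 : a ≤ 2) (j : ℕ) (p : (_ : ℕ) × ℕ) (hd : 1 ≤ p.1)
    (h : p.1 ≤ 2 ^ ee a j) : KK a j * MM a j p ≤ ((2 ^ (62 * ee a j ^ 2) : ℕ) : ℝ) := by
  rcases MM_cases h1 j p hd with h0 | h0
  · rw [h0, mul_zero]; positivity
  have y1 := yy_one hd
  have hE := ee_two h1 j
  have F := Fbd h1 h2 j p hd h0
  have m0 := MM_nonneg a j p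
  set E := ee a j
  have E1 : 1 ≤ E := by omega
  have E1' : (1 : ℝ) ≤ E := by exact_mod_cast E1
  have hy : yy p.1 ≤ 2 * E := by
    have : Real.logb 2 p.1 ≤ E := by
      rw [Real.logb_le_iff_le_rpow one_lt_two (by exact_mod_cast hd), Real.rpow_natCast]
      exact_mod_cast h
    unfold yy; linarith
  set y := yy p.1
  have s7 : 2 * a + a / (a - 1) ≤ 7 := by
    have : a / (a - 1) ≤ 3 := by rw [div_le_iff₀ (by linarith)]; linarith
    linarith
  have b1 : (2 : ℝ) ^ ((2 * a + a / (a - 1)) * y) ≤ 2 ^ (14 * E) := by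
    rw [← Real.rpow_natCast]
    refine Real.rpow_le_rpow_of_exponent_le one_le_two ?_
    push_cast
    nlinarith
  have b2 : 240 * y ^ 2 ≤ 2 ^ (12 * E) := by
    have c1 : (E : ℝ) ≤ 2 ^ E := by exact_mod_cast Nat.lt_two_pow_self.le
    have c2 : (2 : ℝ) ^ 10 ≤ 2 ^ (10 * E) := pow_le_pow_right₀ one_le_two (by omega)
    calc 240 * y ^ 2 ≤ 240 * (2 * 2 ^ E) ^ 2 := by gcongr; linarith
      _ ≤ 2 ^ 10 * (2 ^ E) ^ 2 := by nlinarith [sq_nonneg ((2 : ℝ) ^ E)]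
      _ ≤ 2 ^ (10 * E) * (2 ^ E) ^ 2 := by gcongr
      _ = _ := by ring
  calc KK a j * MM a j p ≤ KK a j * MM a j p * 2 ^ j :=
        le_mul_of_one_le_right (by positivity) (one_le_pow₀ one_le_two)
    _ ≤ 2 ^ (14 * E) * (2 ^ (12 * E)) ^ (j + 2) := F.trans (by gcongr)
    _ ≤ _ := by
        rw [← pow_mul, ← pow_add]
        push_cast
        exact pow_le_pow_right₀ one_le_two (by nlinarith)

def TT (N : ℕ) : Finset ((_ : ℕ) × ℕ) := (Ioo 0 (N + 1)).sigma fun d => range d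

lemma sum_TT (N : ℕ) : ∑ p ∈ TT N, Real.exp (-(lam p.1 ^ 2 / 2)) ≤ 1 / 4 := by
  rw [TT, sum_sigma]
  have h := sum_Ioo_inv_sq_le (α := ℝ) 0 (N + 1)
  have : ∀ d ∈ Ioo 0 (N + 1), ∑ r ∈ range d, Real.exp (-(lam d ^ 2 / 2)) =
      1 / 8 * ((d : ℝ) ^ 2)⁻¹ := by
    intro d hd
    have d1 : (1 : ℝ) ≤ d := by exact_mod_cast (mem_Ioo.1 hd).1
    have d3 : 1 ≤ 8 * (d : ℝ) ^ 3 := by nlinarith [one_le_pow₀ d1 (n := 3)]
    rw [sum_const, card_range, nsmul_eq_mul, lam,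
      Real.sq_sqrt (by have := Real.log_nonneg d3; positivity), mul_div_cancel_left₀ _ two_ne_zero,
      Real.exp_neg, Real.exp_log (by linarith)]
    field_simp
  rw [sum_congr rfl this, ← mul_sum]
  norm_num at h ⊢
  linarith

lemma pc (h1 : 3 / 2 ≤ a) (h2 : a ≤ 2) (N j : ℕ) (u : Fin (KK a j) → ((_ : ℕ) × ℕ) → ℤ)
    (hu : ∀ i, u i ∈ Bx (TT N) (MM a j)) : ∃ c : Fin (KK a j) → ℤ,
      (∀ i, c i = 1 ∨ c i = 0 ∨ c i = -1) ∧ c ≠ 0 ∧ ∑ i, c i • u i ∈ Bx (TT N) (MM a (j + 1)) := by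
  have hE := ee_two h1 j
  obtain ⟨c, c1, c2, c3⟩ := pcol (TT N) ((TT N).filter fun p => p.1 ≤ 2 ^ ee a j) (MM a j)
    (fun p => lam p.1) (R := 2 ^ (62 * ee a j ^ 2)) (fun p => Real.sqrt_nonneg _) (sum_TT N)
    (filter_subset _ _) (fun p hp => crude h1 h2 j p
      (mem_Ioo.1 (mem_sigma.1 (mem_filter.1 hp).1).1).1 (mem_filter.1 hp).2) (by
      have c : ((TT N).filter fun p => p.1 ≤ 2 ^ ee a j).card ≤ 4 ^ ee a j := by
        refine (card_le_card (t := (Ioc 0 (2 ^ ee a j)).sigma fun _ => range (2 ^ ee a j))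
          fun p hp => ?_).trans (le_of_eq ?_)
        · simp only [TT, mem_filter, mem_sigma, mem_Ioo, mem_Ioc, mem_range] at hp ⊢
          omega
        · simp [← mul_pow]
      rw [KK]
      have p4 : 0 < 4 ^ ee a j := by positivity
      have p2 : 0 < ee a j ^ 2 := pow_pos (by omega) _
      generalize ee a j ^ 2 = Q at *
      generalize 4 ^ ee a j = W at *
      have b : 2 * 2 ^ (62 * Q) + 1 ≤ 2 ^ (64 * Q) := by
        have : 2 ^ (62 * Q + 2) ≤ 2 ^ (64 * Q) := Nat.pow_le_pow_right two_pos (by omega)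
        rw [pow_add] at this
        have : 0 < 2 ^ (62 * Q) := by positivity
        omega
      calc _ ≤ 2 * (2 ^ (64 * Q)) ^ W := Nat.mul_le_mul_left _
            ((Nat.pow_le_pow_right (by positivity) c).trans (Nat.pow_le_pow_left b _))
        _ < _ := by
            rw [← pow_mul, ← pow_succ']
            exact Nat.pow_lt_pow_right one_lt_two (by nlinarith)) u hu
  refine ⟨c, c1, c2, fun p hp => (c3 p hp).trans ?_⟩
  simp only [mem_filter, hp, true_and, MM, ZZ, mm]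
  split_ifs
  · exact le_rfl
  · rw [mul_zero]; unfold lam; have := mm_nonneg a p.1 j; positivity
  · exact le_rfl

lemma fin_ver (h1 : 3 / 2 ≤ a) (h2 : a ≤ 2) (N : ℕ) : ∃ ε : ℕ → Bool, ∀ t ≤ N, ∀ p ∈ TT N,
    ∃ n, |((∑ i ∈ range t, if i % p.1 = p.2 then sg (ε i) else 0 : ℤ) : ℝ)| ≤
      ∑ k ∈ range n, KK a k * MM a k p := by
  let u : ℕ → ((_ : ℕ) × ℕ) → ℤ := fun i p => if i % p.1 = p.2 then 1 else 0
  have h := core (TT N) (MM a) (KK a) (MM_nonneg a) (fun j => by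
    have := ee_two h1 j
    have : 0 < ee a j := by omega
    unfold KK; positivity) (pc h1 h2 N) (2 * N + 1) 0 (fun p hp => by
      have b := ee_two h1 (2 * N)
      have c := (mem_Ioo.1 (mem_sigma.1 hp).1).2
      have d := Nat.lt_two_pow_self (n := ee a (2 * N))
      rw [zero_add, MM, ZZ, if_pos (by omega)]) ((List.range N).map u) (fun v hv p hp => by
      obtain ⟨i, -, rfl⟩ := List.mem_map.1 hv
      have c := (mem_Ioo.1 (mem_sigma.1 hp).1).1
      rw [MM, ZZ, if_neg (by omega), mm]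
      simp only [u]
      split_ifs <;> simp)
  obtain ⟨ε, hε⟩ := ok_fun _ _ h
  refine ⟨ε, fun t ht p hp => ⟨2 * N + 1, ?_⟩⟩
  have := hε t (by simpa using ht) p hp
  simp only [zero_add, Finset.sum_apply, Pi.smul_apply, smul_eq_mul] at this
  convert this using 3
  refine sum_congr rfl fun i hi => ?_
  have : i < N := (mem_range.1 hi).trans_le ht
  simp [List.getD, this, u]

lemma inf_ver (h1 : 3 / 2 ≤ a) (h2 : a ≤ 2) : ∃ ε : ℕ → Bool, ∀ t d r : ℕ, r < d →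
    ∃ n, |((∑ i ∈ range t, if i % d = r then sg (ε i) else 0 : ℤ) : ℝ)| ≤
      ∑ k ∈ range n, KK a k * MM a k ⟨d, r⟩ := by
  let C : ℕ → Set (ℕ → Bool) := fun N => {ε | ∀ t ≤ N, ∀ p ∈ TT N,
    ∃ n, |((∑ i ∈ range t, if i % p.1 = p.2 then sg (ε i) else 0 : ℤ) : ℝ)| ≤
      ∑ k ∈ range n, KK a k * MM a k p}
  have hc : ∀ N, IsClosed (C N) := fun N => by
    simp only [C, Set.ofPred_forall]
    refine isClosed_iInter fun t => isClosed_iInter fun _ => isClosed_iInter fun p =>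
      isClosed_iInter fun _ => ?_
    refine (isClosed_discrete {z : ℤ | ∃ n, |(z : ℝ)| ≤ ∑ k ∈ range n, KK a k * MM a k p}).preimage
      (f := fun ε : ℕ → Bool => ∑ i ∈ range t, if i % p.1 = p.2 then sg (ε i) else 0)
      (continuous_finsetSum _ fun i _ => ?_)
    split_ifs
    exacts [(continuous_of_discreteTopology (f := sg)).comp
      (continuous_apply (A := fun _ : ℕ => Bool) i), continuous_const]
  obtain ⟨ε, hε⟩ := IsCompact.nonempty_iInter_of_sequence_nonempty_isCompact_isClosed C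
    (fun N ε h t ht p hp => h t (by omega) p (by
      simp only [TT, mem_sigma, mem_Ioo] at hp ⊢
      exact ⟨by omega, hp.2⟩)) (fin_ver h1 h2) (hc 0).isCompact hc
  refine ⟨ε, fun t d r h => Set.mem_iInter.1 hε (t + d) t (by omega) ⟨d, r⟩ ?_⟩
  simp only [TT, mem_sigma, mem_Ioo, mem_range]
  omega

lemma poly {c δ : ℝ} (hc : 0 ≤ c) (hδ : 0 < δ) :
    ∃ C, ∀ l : ℝ, 0 ≤ l → (3 + 3 * l) * (c + 2 * l) ≤ C + δ * Real.exp l := by
  refine ⟨3 * c + (6 + 3 * c) * (2 + c) + 9 * (54 / δ) ^ 2, fun l hl => ?_⟩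
  have h := Real.pow_div_factorial_le_exp l hl 3
  norm_num [Nat.factorial] at h
  have h2 : (6 + 3 * c) * l ≤ (6 + 3 * c) * (2 + c) + 3 * l ^ 2 := by
    nlinarith [sq_nonneg (l - (2 + c))]
  have h3 : 9 * l ^ 2 ≤ 9 * (54 / δ) ^ 2 + δ * (l ^ 3 / 6) := by
    rcases le_total l (54 / δ) with h | h
    · have : l ^ 2 ≤ (54 / δ) ^ 2 := by gcongr
      have : 0 ≤ δ * (l ^ 3 / 6) := by positivity
      linarith
    · rw [div_le_iff₀ hδ] at h
      have : 0 ≤ (54 / δ) ^ 2 := by positivity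
      nlinarith [mul_le_mul_of_nonneg_left h (sq_nonneg l)]
  nlinarith [mul_le_mul_of_nonneg_left h hδ.le]

lemma Fsum (h1 : 3 / 2 ≤ a) (h2 : a ≤ 2) {δ : ℝ} (hδ : 0 < δ) : ∃ C, ∀ (p : (_ : ℕ) × ℕ) (n : ℕ),
    1 ≤ p.1 → ∑ k ∈ range n, KK a k * MM a k p ≤ C * (p.1 : ℝ) ^ (2 * a + a / (a - 1) + δ) := by
  have l2 : 0 < Real.log 2 := Real.log_pos one_lt_two
  obtain ⟨C, hC⟩ := poly (c := Real.log 240) (Real.log_nonneg (by norm_num)) (mul_pos l2 hδ)
  set s := 2 * a + a / (a - 1)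
  refine ⟨Real.exp C * 2 ^ (s + δ) * 2, fun p n hd => ?_⟩
  have y1 := yy_one hd
  have d0 : (0 : ℝ) < p.1 := by exact_mod_cast hd
  have key : ∀ k, KK a k * MM a k p ≤
      Real.exp C * 2 ^ (s + δ) * (p.1 : ℝ) ^ (s + δ) * (1 / 2) ^ k := by
    intro k
    rcases MM_cases h1 k p hd with h0 | h0
    · rw [h0, mul_zero]; positivity
    have F := Fbd h1 h2 k p hd h0
    have e : (2 : ℝ) ^ (s + δ) * (p.1 : ℝ) ^ (s + δ) = 2 ^ (s * yy p.1) * 2 ^ (δ * yy p.1) := by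
      rw [← Real.rpow_add two_pos, ← add_mul, mul_comm (s + δ), Real.rpow_mul zero_le_two, yy,
        Real.rpow_add_one two_ne_zero, Real.rpow_logb two_pos (by norm_num) d0,
        Real.mul_rpow d0.le zero_le_two, mul_comm]
    set y := yy p.1
    have ly := Real.log_nonneg y1
    have la : 1 / 3 ≤ Real.log a := by
      have := Real.one_sub_inv_le_log_of_pos (x := a) (by linarith)
      have : a⁻¹ ≤ 2 / 3 := by rw [inv_le_comm₀ (by linarith) (by norm_num)]; linarith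
      linarith
    have hk : (k : ℝ) + 2 ≤ 3 + 3 * Real.log y := by
      have := Real.log_le_log (by positivity) h0
      rw [Real.log_pow, Real.log_mul (by linarith) (by linarith)] at this
      nlinarith
    have b : (240 * y ^ 2) ^ (k + 2) ≤ Real.exp C * 2 ^ (δ * y) := by
      rw [Real.rpow_def_of_pos two_pos, ← Real.exp_add, ← Real.log_le_iff_le_exp (by positivity),
        Real.log_pow, Real.log_mul (by norm_num) (by positivity), Real.log_pow]
      have := hC _ ly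
      rw [Real.exp_log (by linarith)] at this
      have l240 : 0 ≤ Real.log 240 := Real.log_nonneg (by norm_num)
      push_cast
      nlinarith
    rw [one_div, inv_pow, ← div_eq_mul_inv, le_div_iff₀ (by positivity), mul_assoc (Real.exp C), e]
    refine F.trans ?_
    calc _ ≤ 2 ^ (s * y) * (Real.exp C * 2 ^ (δ * y)) := by gcongr
      _ = _ := by ring
  refine (sum_le_sum fun k _ => key k).trans ?_
  rw [← mul_sum]
  calc _ ≤ Real.exp C * 2 ^ (s + δ) * (p.1 : ℝ) ^ (s + δ) * 2 := by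
        gcongr; exact sum_geometric_two_le n
    _ = _ := by ring

lemma ap (f : ℕ → ℤ) (b d N : ℕ) (hd : 1 ≤ d) : ∑ k ∈ range N, f (b + k * d) =
    (∑ i ∈ range (b + N * d), if i % d = b % d then f i else 0) -
      ∑ i ∈ range b, if i % d = b % d then f i else 0 := by
  induction N with
  | zero => simp
  | succ N ih =>
    rw [sum_range_succ, ih, add_mul, one_mul, ← add_assoc, sum_range_add _ (b + N * d),
      sum_eq_single 0 (s := range d)]
    · simp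
      ring
    · intro i hi h0
      refine if_neg fun h => h0 ?_
      have h2 : b + (N * d + i) ≡ b + 0 [MOD d] := by rw [← add_assoc]; exact h
      have h3 := (Nat.modEq_zero_iff_dvd).1 (Nat.ModEq.add_left_cancel' b h2)
      exact Nat.eq_zero_of_dvd_of_lt ((Nat.dvd_add_right (dvd_mul_left d N)).1 h3) (mem_range.1 hi)
    · intro h
      exact absurd (mem_range.2 hd) h

theorem main : ∃ f : ℕ → ℤ, (∀ n, f n = 1 ∨ f n = -1) ∧ ∀ ε : ℝ, 0 < ε → ∃ C : ℝ,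
    ∀ b d N : ℕ, 1 ≤ d →
      |((∑ k ∈ range N, f (b + k * d) : ℤ) : ℝ)| ≤ C * (d : ℝ) ^ (3 + 2 * √2 + ε) := by
  have s1 : 1 ≤ √2 := Real.one_le_sqrt.2 one_le_two
  have s2 : √2 * √2 = 2 := Real.mul_self_sqrt zero_le_two
  have h1 : 3 / 2 ≤ 1 + √2 / 2 := by linarith
  have h2 : 1 + √2 / 2 ≤ 2 := by nlinarith
  obtain ⟨g, hg⟩ := inf_ver h1 h2
  refine ⟨fun n => sg (g n), fun n => by cases g n <;> simp [sg], fun ε hε => ?_⟩
  obtain ⟨C, hC⟩ := Fsum h1 h2 hε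
  have e : 2 * (1 + √2 / 2) + (1 + √2 / 2) / (1 + √2 / 2 - 1) = 3 + 2 * √2 := by
    have : (1 + √2 / 2) / (1 + √2 / 2 - 1) = 1 + √2 := by
      rw [div_eq_iff (by linarith)]
      linarith
    linarith
  rw [e] at hC
  refine ⟨2 * C, fun b d N hd => ?_⟩
  obtain ⟨n, hn⟩ := hg (b + N * d) d (b % d) (Nat.mod_lt _ hd)
  obtain ⟨m, hm⟩ := hg b d (b % d) (Nat.mod_lt _ hd)
  have c1 := hC ⟨d, b % d⟩ n hd
  have c2 := hC ⟨d, b % d⟩ m hd
  rw [ap (fun n => sg (g n)) b d N hd, Int.cast_sub]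
  refine (abs_sub _ _).trans ?_
  linarith

end Pool.Agent.H.MP_02f3ba_co
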